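import Pool.Agent.W558.WA.Stms
import Pool.Agent.W924.WD.PBL

/-!
Project AS: blowup of the intersection of a component of the boundary and of the divisors
`y t = 0`.
-/

set_option autoImplicit false
set_option linter.unusedVariables false
set_option linter.unusedSimpArgs false
set_option linter.unusedSectionVars false

universe u

open Polynomial

namespace Pool.Agent.W417.WA.PBL

open Pool.Agent.W558 Pool.Agent.W924.WD.PBL

section

variable {k N : Type u} [Field k] [Field N] [Algebra k N] {T I : Type} [DecidableEq I]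
  (M : LM (⊥ : Subalgebra k N) ⊤ T I) {y : T → N} (i : I)

/-- Lifting of logarithmic tangent vectors. -/
lemma lift_LT (hyA : ∀ t, y t ∈ M.A t) (hy0 : ∀ t, y t ≠ 0)
    (hs : ∀ t, SNC (M.A t) (ox (y t) (M.x t))) (q : T × Bool)
    (B : Subalgebra k N) (hB : B = pA M y i q) (x' : Option I → N) (hx' : x' = pX M y i q)
    (κ : Type u) [Field κ] [Algebra k κ] (φ : B →ₐ[k] κ) (φ0 : M.A q.1 →ₐ[k] κ)
    (hφ0 : ∀ (a : M.A q.1) (h : (a : N) ∈ B), φ ⟨a, h⟩ = φ0 a)
    (v : LT φ0 (ox (y q.1) (M.x q.1))) :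
    ∃ v' : LT φ (ox (pY M y i q) x'),
      (∀ (a : M.A q.1) (h : (a : N) ∈ B), v'.D.D ⟨a, h⟩ = v.D.D a) ∧
      v'.e none = v.e none - v.e (deo i q.2) ∧ v'.e (some none) = v.e (deo i q.2) ∧
      ∀ l, v'.e (some (some l)) = if l = i then v.e (some i) - v.e (deo i q.2)
        else v.e (some l) := by
  subst hB hx'
  have := M.sm q.1
  let X : Option I → N := ox (y q.1) (M.x q.1)
  let nu := nuo i q.2
  let de := deo i q.2
  have hXm : ∀ o, X o ∈ M.A q.1 := fun o => ox_mem M hyA q.1 o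
  have hX0 : ∀ o, X o ≠ 0 := fun o => ox_ne M hy0 q.1 o
  have hφ1 : ∀ a : M.A q.1, φ ⟨a, le_pA M y i q a.2⟩ = φ0 a := fun a => hφ0 a _
  have ht : Trans (M.A q.1) (⟨X nu, hXm nu⟩ : M.A q.1) ⟨X de, hXm de⟩ :=
    (hs q.1).trans (nuo_ne_deo i q.2) _ _
  have hrel : φ0 ⟨X de, hXm de⟩ * φ ⟨vo M y i q, vo_mem M y i q⟩ = φ0 ⟨X nu, hXm nu⟩ := by
    rw [← hφ1, ← hφ1, ← map_mul]
    congr 1
    apply Subtype.ext
    change X de * (X nu / X de) = X nu
    have := hX0 de
    field_simp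
  obtain ⟨E, hE1, hE2⟩ := TV.ext_adj (x := ⟨X nu, hXm nu⟩) (y := ⟨X de, hXm de⟩) (hX0 de) ht φ φ0
    hφ1 v.D (φ ⟨vo M y i q, vo_mem M y i q⟩ * (v.e nu - v.e de)) (by
      rw [v.hx nu (hXm nu), v.hx de (hXm de), ← hrel]
      change φ0 ⟨X de, hXm de⟩ * (φ ⟨vo M y i q, vo_mem M y i q⟩ * (v.e nu - v.e de)) +
        φ ⟨vo M y i q, vo_mem M y i q⟩ * (φ0 ⟨X de, hXm de⟩ * v.e de) =
        φ0 ⟨X de, hXm de⟩ * φ ⟨vo M y i q, vo_mem M y i q⟩ * v.e nu
      ring)
  let P : N → κ → Prop := fun a e0 => ∀ ha : a ∈ pA M y i q, E.D ⟨a, ha⟩ = φ ⟨a, ha⟩ * e0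
  have P1 : P 1 0 := by
    intro ha
    rw [mul_zero]
    exact E.D_one
  have PV : P (vo M y i q) (v.e nu - v.e de) := fun ha => hE2
  have PX : ∀ o, P (X o) (v.e o) := by
    intro o ha
    exact ((hE1 ⟨X o, hXm o⟩).trans (v.hx o (hXm o))).trans
      (congrArg (fun z => z * v.e o) (hφ1 ⟨X o, hXm o⟩).symm)
  let e' : Option (Option I) → κ := fun o => o.elim (v.e none - v.e de) fun o =>
    o.elim (v.e de) fun l => if l = i then v.e (some i) - v.e de else v.e (some l)
  have hP : ∀ o, P (ox (pY M y i q) (pX M y i q) o) (e' o) := by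
    rintro (_ | _ | l)
    · obtain ⟨t, b⟩ := q
      cases b
      · have h1 : ox (pY M y i (t, false)) (pX M y i (t, false)) none = 1 := by
          simp [pY, bx, nuo, deo, ox]
        have h2 : e' none = 0 := by simp [e', de, deo]
        rw [h1, h2]
        exact P1
      · have h1 : ox (pY M y i (t, true)) (pX M y i (t, true)) none = vo M y i (t, true) := by
          simp [pY, bx, nuo, deo, ox, vo]
        rw [h1]
        exact PV
    · exact PX de
    · by_cases hl : l = i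
      · subst hl
        obtain ⟨t, b⟩ := q
        cases b
        · have h1 : ox (pY M y l (t, false)) (pX M y l (t, false)) (some (some l)) =
              vo M y l (t, false) := by
            simp [pX, bx, nuo, deo, ox, vo]
          have h2 : e' (some (some l)) = v.e nu - v.e de := by
            simp [e', de, nu, deo, nuo]
          rw [h1, h2]
          exact PV
        · have h1 : ox (pY M y l (t, true)) (pX M y l (t, true)) (some (some l)) = 1 := by
            simp [pX, bx, nuo, deo, ox]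
          have h2 : e' (some (some l)) = 0 := by simp [e', de, deo]
          rw [h1, h2]
          exact P1
      · have h1 : ox (pY M y i q) (pX M y i q) (some (some l)) = X (some l) :=
          pX_ne M y i q hl
        have h2 : e' (some (some l)) = v.e (some l) := by simp [e', hl]
        rw [h1, h2]
        exact PX _
  exact ⟨⟨E, e', fun o ho => hP o ho⟩, fun a h => hE1 a, rfl, rfl, fun l => rfl⟩

/-- The sums of the values. -/
lemma sum_lift {κ : Type u} [Field κ] [Fintype I] (γ : I → ℤ) (γ0 : ℤ) (e : Option I → κ)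
    (w : κ) (e' : Option (Option I) → κ) (h1 : e' (some none) = w)
    (h2 : ∀ l, e' (some (some l)) = if l = i then e (some i) - w else e (some l)) :
    ∑ o : Option I, ((o.elim γ0 γ : ℤ) : κ) * e' (some o) =
      ((γ0 - γ i : ℤ) : κ) * w + ∑ l, (γ l : κ) * e (some l) := by
  rw [Fintype.sum_option]
  have h3 : ∀ l : I, (γ l : κ) * e' (some (some l)) =
      (γ l : κ) * e (some l) - (if l = i then (γ i : κ) * w else 0) := by
    intro l
    rw [h2]
    split_ifs with h
    · subst h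
      ring
    · ring
  simp only [Option.elim]
  rw [h1, Finset.sum_congr rfl fun l _ => h3 l, Finset.sum_sub_distrib,
    Finset.sum_ite_eq' Finset.univ i, if_pos (Finset.mem_univ i)]
  push_cast
  ring

lemma sum_none {κ : Type u} [Field κ] {J : Type} [Fintype J] (γ : J → ℤ) (e : Option J → κ) :
    ∑ o : Option J, ((o.elim 0 γ : ℤ) : κ) * e o = ∑ j, (γ j : κ) * e (some j) := by
  rw [Fintype.sum_option]
  simp only [Option.elim, Int.cast_zero, zero_mul, zero_add]

/-- The vertical tangent vectors. -/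
lemma vt_lift (hyA : ∀ t, y t ∈ M.A t) (hy0 : ∀ t, y t ≠ 0)
    (hs : ∀ t, SNC (M.A t) (ox (y t) (M.x t))) (t : T)
    (B : Subalgebra k N) (hB : B = pA M y i (t, true)) (x' : Option I → N)
    (hx' : x' = pX M y i (t, true))
    (κ : Type u) [Field κ] [Algebra k κ] (φ : B →ₐ[k] κ) (φ0 : M.A t →ₐ[k] κ)
    (hφ0 : ∀ (a : M.A t) (h : (a : N) ∈ B), φ ⟨a, h⟩ = φ0 a) (D : TV φ0)
    (hDy : D.D ⟨y t, hyA t⟩ ≠ 0) (hDx : ∀ l, D.D ⟨M.x t l, M.xA t l⟩ = 0) {h : N}
    (hA : h ∈ M.A t) (hDh : D.D ⟨h, hA⟩ = 0) :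
    ∃ D' : TV φ, (∀ hY, D'.D ⟨pY M y i (t, true), hY⟩ ≠ 0) ∧
      (∀ o hX, D'.D ⟨x' o, hX⟩ = 0) ∧ ∀ hA', D'.D ⟨h, hA'⟩ = 0 := by
  subst hB hx'
  have := M.sm t
  have hφ1 : ∀ a : M.A t, φ ⟨a, le_pA M y i (t, true) a.2⟩ = φ0 a := fun a => hφ0 a _
  have ht : Trans (M.A t) (⟨y t, hyA t⟩ : M.A t) ⟨M.x t i, M.xA t i⟩ :=
    (hs t).trans (nuo_ne_deo i true) _ _
  -- the common part
  have key : ∀ (D0 : TV φ0) (w : κ), w ≠ 0 → (∀ l, D0.D ⟨M.x t l, M.xA t l⟩ = 0) →
      D0.D ⟨h, hA⟩ = 0 → φ0 ⟨M.x t i, M.xA t i⟩ * w = D0.D ⟨y t, hyA t⟩ →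
      ∃ D' : TV φ, (∀ hY, D'.D ⟨pY M y i (t, true), hY⟩ ≠ 0) ∧
      (∀ o hX, D'.D ⟨pX M y i (t, true) o, hX⟩ = 0) ∧ ∀ hA', D'.D ⟨h, hA'⟩ = 0 := by
    intro D0 w hw hD0x hD0h hrel
    obtain ⟨E, hE1, hE2⟩ := TV.ext_adj (x := ⟨y t, hyA t⟩) (y := ⟨M.x t i, M.xA t i⟩)
      (M.x0 t i) ht φ φ0 hφ1 D0 w (by
        rw [hD0x i, mul_zero, add_zero]
        exact hrel)
    refine ⟨E, ?_, ?_, ?_⟩
    · intro hY h0
      have h1 : pY M y i (t, true) = y t / M.x t i := by
        simp [pY, bx, nuo, deo, ox]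
      have hcase : ∀ (z : N) (hz : z = pY M y i (t, true)) (hz' : z ∈ pA M y i (t, true)),
          E.D ⟨z, hz'⟩ = w → E.D ⟨pY M y i (t, true), hY⟩ = w := by
        intro z hz hz' h0
        subst hz
        exact h0
      exact hw ((hcase (y t / M.x t i) h1.symm (self_mem_adj _ _) hE2).symm.trans h0)
    · intro o hX
      have hcase : ∀ (z : N) (hz : z = pX M y i (t, true) o) (hz' : z ∈ pA M y i (t, true)),
          E.D ⟨z, hz'⟩ = 0 → E.D ⟨pX M y i (t, true) o, hX⟩ = 0 := by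
        intro z hz hz' h0
        subst hz
        exact h0
      rcases o with _ | l
      · exact hcase (M.x t i) (by simp [pX, bx, nuo, deo, ox])
          (le_pA M y i (t, true) (M.xA t i)) ((hE1 ⟨M.x t i, M.xA t i⟩).trans (hD0x i))
      · by_cases hl : l = i
        · subst hl
          exact hcase 1 (by simp [pX, bx, nuo, deo, ox]) (Subalgebra.one_mem _) E.D_one
        · exact hcase (M.x t l) (pX_ne M y i (t, true) hl).symm
            (le_pA M y i (t, true) (M.xA t l)) ((hE1 ⟨M.x t l, M.xA t l⟩).trans (hD0x l))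
    · intro hA'
      exact (hE1 ⟨h, hA⟩).trans hD0h
  by_cases hxi : φ0 ⟨M.x t i, M.xA t i⟩ = 0
  · refine key (TV.zero φ0) 1 one_ne_zero (fun l => TV.zero_D _) (TV.zero_D _) ?_
    rw [hxi, zero_mul]
    exact (TV.zero_D _).symm
  · refine key D (D.D ⟨y t, hyA t⟩ / φ0 ⟨M.x t i, M.xA t i⟩) (div_ne_zero hDy hxi) hDx hDh ?_
    field_simp

end

set_option maxHeartbeats 2000000 in
theorem main : WA_pbl.{u} := by
  intro p hp k N _ _ _ _ T I G _ _ _ M F Q y h r c μ g Γ hPS hLq hFn i hci hgl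
  have hp0 : p ≠ 0 := hp.out.ne_zero
  obtain ⟨M', hA, hx⟩ := exists_pbl M i hPS.yA hPS.y0 hPS.snc hgl
  have hle : ∀ q : T × Bool, M.A q.1 ≤ M'.A q := fun q => by
    rw [hA]
    exact le_pA M y i q
  have hy0 := hPS.y0
  have hyA := hPS.yA
  have hyE := y_eq M i hy0
  have hxE := x_eq M i hy0
  have hYA : ∀ q, pY M y i q ∈ M'.A q := fun q => by
    rw [hA]
    exact bx_mem M i hyA q _
  have hXA : ∀ q o, pX M y i q o ∈ M'.A q := fun q o => by
    rw [hA]
    exact bx_mem M i hyA q _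
  have hY0 : ∀ q, pY M y i q ≠ 0 := fun q => bx_ne M i hy0 q _
  have hX0 : ∀ q o, pX M y i q o ≠ 0 := fun q o => bx_ne M i hy0 q _
  -- factors
  have hc : ∀ (q : T × Bool) (l : I), ∃ w ∈ M'.A q, M.x q.1 l = w * pX M y i q (some l) := by
    intro q l
    refine ⟨if l = i then pX M y i q none else 1, ?_, ?_⟩
    · split_ifs
      · exact hXA q _
      · exact (M'.A q).one_mem
    · rw [mul_comm]
      exact hxE q l
  have hoxQ : ∀ t o, ox (y t) (M.x t) o ∈ Q := fun t o => hPS.AQ t (ox_mem M hyA t o)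
  have hoxQ' : ∀ t o, (ox (y t) (M.x t) o)⁻¹ ∈ Q := fun t o => by
    cases o with
    | none => exact hPS.yQ t
    | some l => exact hPS.xQ t l
  have hbQ : ∀ (q : T × Bool) (o : Option (Option I)),
      (bx (ox (y q.1) (M.x q.1)) (nuo i q.2) (deo i q.2) o)⁻¹ ∈ Q := by
    intro q o
    cases o with
    | none => exact hoxQ' _ _
    | some l =>
      simp only [bx]
      split_ifs
      · rw [inv_div, div_eq_mul_inv]
        exact Q.mul_mem (hoxQ _ _) (hoxQ' _ _)
      · rw [inv_one]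
        exact Q.one_mem
      · exact hoxQ' _ _
  -- restriction of a point
  let res : ∀ (q : T × Bool) (κ : Type u) [Field κ] [Algebra k κ] (φ : M'.A q →ₐ[k] κ),
      M.A q.1 →ₐ[k] κ := fun q κ _ _ φ => φ.comp (Subalgebra.inclusion (hle q))
  have hres : ∀ (q : T × Bool) (κ : Type u) [Field κ] [Algebra k κ] (φ : M'.A q →ₐ[k] κ)
      (a : M.A q.1) (h : (a : N) ∈ M'.A q), φ ⟨a, h⟩ = res q κ φ a :=
    fun q κ _ _ φ a h => rfl
  -- inverse of `y'`
  have hyinv : ∀ q : T × Bool, (y q.1)⁻¹ ∈ M.A q.1 → (pY M y i q)⁻¹ ∈ M'.A q := by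
    intro q hq
    have h1 : (pY M y i q)⁻¹ = pX M y i q none * (y q.1)⁻¹ := by
      have h2 := hY0 q
      have h3 := hX0 q none
      rw [hyE q]
      field_simp
    rw [h1]
    exact (M'.A q).mul_mem (hXA q none) (hle q hq)
  have hci' := hPS.cm i hci
  refine ⟨M', pY M y i, fun q => h q.1, fun q => r q.1, fun o => o.elim (μ i + 1) μ,
    fun a o => o.elim (Γ a i) (Γ a), ?_, ?_, ?_, ?_, ?_, ?_, ?_, ?_⟩
  · refine ⟨hYA, hY0, fun q => hle q (hPS.hA q.1), fun q => hle q (hPS.rA q.1), ?_, ?_,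
      fun q => hbQ q _, ?_, ?_, ?_, ?_, ?_, ?_, ?_, ?_, ?_⟩
    · -- AQ
      intro q
      rw [hA]
      refine adj_le (hPS.AQ q.1) ?_
      unfold vo
      rw [div_eq_mul_inv]
      exact Q.mul_mem (hoxQ _ _) (hoxQ' _ _)
    · intro q o
      rw [hx]
      exact hbQ q _
    · -- m0
      rintro (_ | l)
      · show μ i + 1 ≤ 0
        omega
      · exact hPS.m0 l
    · -- cp
      rintro (_ | l)
      · show c i - p ≤ p
        have := hPS.cp i
        omega
      · exact hPS.cp l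
    · -- cm
      rintro (_ | l) ho
      · have h1 : 0 < c i - p := ho
        have := hPS.cp i
        omega
      · exact hPS.cm l ho
    · -- the equation
      intro q
      rw [hPS.eq q.1, hx, Fintype.prod_option, Fintype.prod_option, Fintype.prod_option]
      rw [prod_pX M i hy0 q, prod_pX M i hy0 q, prod_pX M i hy0 q, hyE q]
      simp only [Option.elim]
      have hn := hX0 q none
      set X0 := pX M y i q none with hX0d
      set Y0 := pY M y i q with hY0d
      set P1 := ∏ l, pX M y i q (some l) ^ ((p : ℤ) * μ l) with hP1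
      set P2 := ∏ l, pX M y i q (some l) ^ (-((p : ℤ) - 1) * μ l) with hP2
      set P3 := ∏ l, pX M y i q (some l) ^ c l with hP3
      have f1 : X0 ^ ((p : ℤ) * (μ i + 1)) = X0 ^ ((p : ℤ) * μ i) * X0 ^ p := by
        rw [mul_add, mul_one, zpow_add₀ hn, zpow_natCast]
      have f2 : X0 ^ p * X0 ^ (-((p : ℤ) - 1) * (μ i + 1)) =
          X0 ^ (-((p : ℤ) - 1) * μ i) * X0 := by
        rw [← zpow_natCast, ← zpow_add₀ hn, ← zpow_add_one₀ hn]
        congr 1
        ring
      have f3 : X0 ^ p * X0 ^ (c i - (p : ℤ)) = X0 ^ c i := by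
        rw [← zpow_natCast, ← zpow_add₀ hn]
        congr 1
        ring
      rw [f1, mul_pow]
      linear_combination X0 ^ ((p : ℤ) * μ i) * P1 * P2 * Y0 * f2 +
        X0 ^ ((p : ℤ) * μ i) * P1 * P3 * h q.1 * f3
    · intro q
      rw [hA, hx]
      have := M.sm q.1
      have h1 := (hPS.snc q.1).blow (ox_mem M hyA q.1) (ox_ne M hy0 q.1) (nuo_ne_deo i q.2)
      let σ : Option (Option I) → Option (Option I) := fun o => o.elim (some none) (Option.map some)
      have hσ : Function.Injective σ := by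
        rintro (_ | _ | a) (_ | _ | b) hab <;> simp_all [σ]
      have h2 := snc_comp h1 hσ
      refine (congrArg (SNC (pA M y i q)) ?_).mp h2
      funext o
      rcases o with _ | _ | a <;> rfl
    · -- ri
      intro q κ _ _ φ o ho hφo
      have hφo' : φ ⟨pX M y i q o, hXA q o⟩ = 0 := by
        have h1 : (⟨M'.x q o, M'.xA q o⟩ : M'.A q) = ⟨pX M y i q o, hXA q o⟩ :=
          Subtype.ext (congrFun (congrFun hx q) o)
        rw [← h1]
        exact hφo
      rcases o with _ | l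
      · -- the new component
        have h1 : res q κ φ ⟨M.x q.1 i, M.xA q.1 i⟩ = 0 := by
          rw [← hres q κ φ ⟨M.x q.1 i, M.xA q.1 i⟩ (hle q (M.xA q.1 i))]
          have h2 : (⟨M.x q.1 i, hle q (M.xA q.1 i)⟩ : M'.A q) =
              ⟨pX M y i q (some i), hXA q _⟩ * ⟨pX M y i q none, hXA q _⟩ :=
            Subtype.ext (xi_eq M i hy0 q)
          rw [h2, map_mul, hφo', mul_zero]
        have h3 : res q κ φ ⟨y q.1, hyA q.1⟩ = 0 := by
          rw [← hres q κ φ ⟨y q.1, hyA q.1⟩ (hle q (hyA q.1))]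
          have h2 : (⟨y q.1, hle q (hyA q.1)⟩ : M'.A q) =
              ⟨pY M y i q, hYA q⟩ * ⟨pX M y i q none, hXA q _⟩ :=
            Subtype.ext (hyE q)
          rw [h2, map_mul, hφo', mul_zero]
        rcases hPS.ri q.1 κ (res q κ φ) i (Or.inl hci') h1 with h4 | ⟨h4, h5⟩
        · left
          exact h4
        · exfalso
          have h6 : (⟨y q.1, hyA q.1⟩ : M.A q.1) * ⟨(y q.1)⁻¹, h5⟩ = 1 :=
            Subtype.ext (mul_inv_cancel₀ (hy0 q.1))
          have h7 := congrArg (res q κ φ) h6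
          rw [map_mul, h3, zero_mul, map_one] at h7
          exact zero_ne_one h7
      · have h1 : res q κ φ ⟨M.x q.1 l, M.xA q.1 l⟩ = 0 := by
          rw [← hres q κ φ ⟨M.x q.1 l, M.xA q.1 l⟩ (hle q (M.xA q.1 l))]
          obtain ⟨w, hw, hw'⟩ := hc q l
          have h2 : (⟨M.x q.1 l, hle q (M.xA q.1 l)⟩ : M'.A q) =
              ⟨w, hw⟩ * ⟨pX M y i q (some l), hXA q _⟩ := Subtype.ext hw'
          rw [h2, map_mul, hφo', mul_zero]
        rcases hPS.ri q.1 κ (res q κ φ) l ho h1 with h4 | ⟨h4, h5⟩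
        · left
          exact h4
        · right
          exact ⟨h4, hyinv q h5⟩
    · -- ln
      intro q κ _ _ φ hφr
      obtain ⟨v, hv⟩ := hPS.ln q.1 κ (res q κ φ) hφr
      obtain ⟨v', hD, h1, h2, h3⟩ := lift_LT M i hyA hy0 hPS.snc q (M'.A q) (by rw [hA])
        (M'.x q) (by rw [hx]) κ φ (res q κ φ) (hres q κ φ) v
      refine ⟨v', ?_⟩
      have hpκ : (p : κ) = 0 := by
        have h1 : algebraMap k κ (p : k) = (p : κ) := map_natCast _ p
        rw [← h1, CharP.cast_eq_zero, map_zero]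
      have hs := sum_lift i c (c i - p) v.e _ v'.e h2 h3
      have hom : om v' (fun o => o.elim 0 fun o => o.elim (c i - p) c)
          (hle q (hPS.hA q.1)) = om v (fun o => o.elim 0 c) (hPS.hA q.1) := by
        unfold om
        rw [hD ⟨h q.1, hPS.hA q.1⟩ (hle q (hPS.hA q.1)),
          hres q κ φ ⟨h q.1, hPS.hA q.1⟩ (hle q (hPS.hA q.1))]
        congr 2
        rw [sum_none (fun o : Option I => o.elim (c i - p) c) v'.e, sum_none c v.e, hs]
        push_cast
        rw [hpκ]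
        ring
      rw [hom]
      exact hv
    · -- vt
      rintro ⟨t, b⟩ κ _ _ φ
      cases b
      · left
        have h1 : pY M y i (t, false) = 1 := by simp [pY, bx, nuo, deo]
        rw [h1, inv_one]
        exact (M'.A _).one_mem
      · rcases hPS.vt t κ (res (t, true) κ φ) with h1 | ⟨D, hD1, hD2, hD3⟩
        · left
          exact hyinv (t, true) h1
        · right
          obtain ⟨D', h1, h2, h3⟩ := vt_lift M i hyA hy0 hPS.snc t (M'.A (t, true)) (by rw [hA])
            (M'.x (t, true)) (by rw [hx]) κ φ (res (t, true) κ φ) (hres (t, true) κ φ) D hD1 hD2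
            (hPS.hA t) hD3
          exact ⟨D', h1 _, fun o => h2 o _, h3 _⟩
    · -- vl
      intro q κ _ _ φ
      obtain ⟨v, hv1, hv2, hv3⟩ := hPS.vl q.1 κ (res q κ φ)
      obtain ⟨v', hD, h1, h2, h3⟩ := lift_LT M i hyA hy0 hPS.snc q (M'.A q) (by rw [hA])
        (M'.x q) (by rw [hx]) κ φ (res q κ φ) (hres q κ φ) v
      have hpκ : (p : κ) = 0 := by
        have h1 : algebraMap k κ (p : k) = (p : κ) := map_natCast _ p
        rw [← h1, CharP.cast_eq_zero, map_zero]
      refine ⟨v', ?_, ?_, ?_⟩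
      · exact (hD ⟨h q.1, hPS.hA q.1⟩ _).trans hv1
      · rw [sum_lift i c (c i - p) v.e _ v'.e h2 h3, hv2]
        push_cast
        rw [hpκ]
        ring
      · rw [sum_lift i μ (μ i + 1) v.e _ v'.e h2 h3, h1, ← hv3]
        push_cast
        ring
  · intro q s hs
    obtain ⟨α, hα, β, hβ, h1, h2, h3⟩ := hLq q.1 s hs
    exact ⟨α, hle q hα, β, hle q hβ, h1, h2, h3⟩
  · intro a q
    obtain ⟨w, hw0, hw, hw', hga⟩ := hFn a q.1
    refine ⟨w, hw0, hle q hw, hle q hw', ?_⟩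
    rw [hga, prod_pX M i hy0 q, hx, Fintype.prod_option]
    rfl
  · -- SepY
    rintro ⟨t, b⟩
    rw [hx]
    cases b
    · refine ⟨0, (M'.A _).zero_mem, 1, (M'.A _).one_mem, ?_⟩
      simp [pY, bx, nuo, deo]
    · refine ⟨1, (M'.A _).one_mem, 0, (M'.A _).zero_mem, ?_⟩
      simp [pX, bx, nuo, deo]
  · intro l l' hh q
    rw [hx]
    obtain ⟨α, hα, β, hβ, h1⟩ := hh q.1
    obtain ⟨w, hw1, hw2⟩ := hc q l
    obtain ⟨w', hw1', hw2'⟩ := hc q l'
    refine ⟨α * w, (M'.A q).mul_mem (hle q hα) hw1, β * w', (M'.A q).mul_mem (hle q hβ) hw1', ?_⟩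
    rw [← h1, hw2, hw2']
    ring
  · intro l hh q
    rw [hx]
    obtain ⟨α, hα, β, hβ, h1⟩ := hh q.1
    obtain ⟨w, hw1, hw2⟩ := hc q l
    refine ⟨α * w, (M'.A q).mul_mem (hle q hα) hw1, β * pX M y i q none,
      (M'.A q).mul_mem (hle q hβ) (hXA q _), ?_⟩
    rw [← h1, hw2, hyE q]
    ring
  · intro l hh q
    rw [hx]
    obtain ⟨α, hα, β, hβ, h1⟩ := hh q.1
    obtain ⟨w, hw1, hw2⟩ := hc q l
    refine ⟨α * pX M y i q (some i), (M'.A q).mul_mem (hle q hα) (hXA q _), β * w,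
      (M'.A q).mul_mem (hle q hβ) hw1, ?_⟩
    rw [← h1, hw2, xi_eq M i hy0 q]
    ring
  · intro l hh q
    rw [hx]
    obtain ⟨α, hα, β, hβ, h1⟩ := hh q.1
    obtain ⟨w, hw1, hw2⟩ := hc q l
    refine ⟨β * pY M y i q, (M'.A q).mul_mem (hle q hβ) (hYA q), α * w,
      (M'.A q).mul_mem (hle q hα) hw1, ?_⟩
    rw [← h1, hw2, hyE q]
    ring

end Pool.Agent.W417.WA.PBL
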