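import Pool.Agent.W558.WA.Stms
import Pool.Agent.W64.WD.Cp

set_option autoImplicit false

/-! Project AS, part CP. -/

universe u

namespace Pool.Agent.W417.WA.CP

open Pool.Agent.W558 Pool.Agent.W64.WD

theorem main : WA_cp.{u} := by
  classical
  intro p hp k N _ _ _ _ _ T I _ M F Q y h r c μ hPS i hi t t'
  have hcN : CharP N p := charP_of_injective_algebraMap (algebraMap k N).injective p
  have := M.sm t
  set ρ : N := M.H t' / M.H t with hρ
  have hρ0 : ρ ≠ 0 := div_ne_zero (M.H0 t') (M.H0 t)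
  have hρA : ρ ∈ M.A t := M.rt t t'
  set B : Subalgebra k N := adj (M.A t) ρ⁻¹ with hB
  have hsm : Algebra.Smooth k B := smooth_adj_inv hρA hρ0
  have hAB : M.A t ≤ B := le_adj _ _
  have hAB' : M.A t' ≤ B := fun f hf => by
    obtain ⟨n, hn⟩ := M.gl t t' f hf
    exact (mem_adj_inv hρA hρ0).2 ⟨n, by rw [mul_comm]; exact hn⟩
  have hsnc : SNC B (M.x t) := (M.snc t).loc (M.xA t) hρA hρ0
  have hx0 : ∀ j, M.x t j ≠ 0 := M.x0 t
  have hx0' : ∀ j, M.x t' j ≠ 0 := M.x0 t'
  have hxB : ∀ j, M.x t j ∈ B := fun j => hAB (M.xA t j)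
  -- the units
  let ε : I → N := fun j => M.x t' j / M.x t j
  have hε0 : ∀ j, ε j ≠ 0 := fun j => div_ne_zero (hx0' j) (hx0 j)
  have hεB : ∀ j, ε j ∈ B := fun j => by
    obtain ⟨n, hn⟩ := M.gi t t' j
    exact (mem_adj_inv hρA hρ0).2 ⟨n, by rw [mul_comm]; exact hn⟩
  have hεB' : ∀ j, (ε j)⁻¹ ∈ B := fun j => by
    obtain ⟨n, hn⟩ := M.gi t' t j
    have h1 : (ε j)⁻¹ = ρ ^ n * ((M.H t / M.H t') ^ n * (M.x t j / M.x t' j)) := by
      have e1 : M.H t / M.H t' = ρ⁻¹ := by rw [hρ, inv_div]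
      rw [e1, ← mul_assoc, ← mul_pow, mul_inv_cancel₀ hρ0, one_pow, one_mul]
      exact inv_div _ _
    rw [h1]
    exact B.mul_mem (B.pow_mem (hAB hρA) n) (hAB' hn)
  have hxε : ∀ j, M.x t' j = M.x t j * ε j := fun j => by
    show M.x t' j = M.x t j * (M.x t' j / M.x t j)
    have := hx0 j
    field_simp
  set E : N := ∏ j, ε j ^ μ j with hE
  set G : N := ∏ j, ε j ^ c j with hG
  set X : N := ∏ j, M.x t j ^ c j with hX
  set U : N := ∏ j, M.x t j ^ μ j with hU
  have hEB : E ∈ B := B.prod_mem fun j _ => zpow_mem (hεB j) (hεB' j) _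
  have hGB : G ∈ B := B.prod_mem fun j _ => zpow_mem (hεB j) (hεB' j) _
  have hEB' : E⁻¹ ∈ B := by
    rw [hE, ← Finset.prod_inv_distrib]
    refine B.prod_mem fun j _ => ?_
    rw [← zpow_neg]
    exact zpow_mem (hεB j) (hεB' j) _
  have hE0 : E ≠ 0 := Finset.prod_ne_zero_iff.2 fun j _ => zpow_ne_zero _ (hε0 j)
  have hU0 : U ≠ 0 := Finset.prod_ne_zero_iff.2 fun j _ => zpow_ne_zero _ (hx0 j)
  have hyB : y t ∈ B := hAB (hPS.yA t)
  have hyB' : y t' ∈ B := hAB' (hPS.yA t')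
  -- comparison of the two expressions
  have e1 : ∏ j, M.x t j ^ ((p : ℤ) * μ j) = U ^ p := by
    rw [hU, ← Finset.prod_pow]
    refine Finset.prod_congr rfl fun j _ => ?_
    rw [← zpow_natCast, ← zpow_mul, mul_comm]
  have e2 : ∏ j, M.x t' j ^ ((p : ℤ) * μ j) = (U * E) ^ p := by
    rw [hU, hE, ← Finset.prod_mul_distrib, ← Finset.prod_pow]
    refine Finset.prod_congr rfl fun j _ => ?_
    rw [← mul_zpow, ← hxε, ← zpow_natCast, ← zpow_mul, mul_comm]
  have e3 : ∏ j, M.x t' j ^ c j = X * G := by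
    rw [hX, hG, ← Finset.prod_mul_distrib]
    refine Finset.prod_congr rfl fun j _ => ?_
    rw [← mul_zpow, ← hxε]
  set V : N := ∏ j, M.x t j ^ (-((p : ℤ) - 1) * μ j) with hV
  set W : N := ∏ j, ε j ^ (-((p : ℤ) - 1) * μ j) with hW
  have e3' : ∏ j, M.x t' j ^ (-((p : ℤ) - 1) * μ j) = V * W := by
    rw [hV, hW, ← Finset.prod_mul_distrib]
    refine Finset.prod_congr rfl fun j _ => ?_
    rw [← mul_zpow, ← hxε]
  have eW : E ^ p * W = E := by
    rw [hE, hW, ← Finset.prod_pow, ← Finset.prod_mul_distrib]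
    refine Finset.prod_congr rfl fun j _ => ?_
    rw [← zpow_natCast, ← zpow_mul, ← zpow_add₀ (hε0 j)]
    congr 1
    ring
  have e4 := hPS.eq t
  have e5 := hPS.eq t'
  rw [e1, ← hX, ← hV] at e4
  rw [e2, e3, e3', e4, mul_pow, mul_assoc] at e5
  have e6 : y t ^ p - V * y t - X * h t =
      E ^ p * (y t' ^ p - V * W * y t' - X * G * h t') :=
    mul_left_cancel₀ (pow_ne_zero p hU0) e5
  set κ : N := h t - E ^ p * G * h t' with hκ
  have hκB : κ ∈ B := B.sub_mem (hAB (hPS.hA t))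
    (B.mul_mem (B.mul_mem (B.pow_mem hEB p) hGB) (hAB' (hPS.hA t')))
  have e7 : (y t - E * y t') ^ p = V * (y t - E * y t') + X * κ := by
    rw [sub_pow_char, mul_pow]
    linear_combination e6 - V * y t' * eW
  -- removal of the denominators
  let d : I → ℕ := fun j => (-c j).toNat
  let e : I → ℕ := fun j => ((p : ℤ) * d j + c j - if j = i then 1 else 0).toNat
  have hp1 : 1 ≤ p := hp.out.one_lt.le
  have hde : ∀ j, (p : ℤ) * d j + c j = (if j = i then 1 else 0) + e j := by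
    intro j
    have h0 : 0 ≤ (p : ℤ) * d j + c j - (if j = i then 1 else 0) := by
      rcases le_or_gt 0 (c j) with hc | hc
      · have hd : (d j : ℤ) = 0 := by
          show (((-c j).toNat : ℕ) : ℤ) = 0
          rw [Int.toNat_of_nonpos (by omega)]
          rfl
        rw [hd, mul_zero, zero_add]
        split_ifs with hji
        · rw [hji]; omega
        · omega
      · have hd : (d j : ℤ) = -c j := Int.toNat_of_nonneg (by omega)
        have hji : j ≠ i := by
          rintro rfl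
          omega
        rw [if_neg hji, hd]
        have hp1' : (1 : ℤ) ≤ p := by exact_mod_cast hp1
        nlinarith
    have h1 : (e j : ℤ) = (p : ℤ) * d j + c j - (if j = i then 1 else 0) :=
      Int.toNat_of_nonneg h0
    rw [h1]
    ring
  set m : N := ∏ j, M.x t j ^ d j with hm
  set z : N := ∏ j, M.x t j ^ e j with hz
  have hmB : m ∈ B := B.prod_mem fun j _ => B.pow_mem (hxB j) _
  have hzB : z ∈ B := B.prod_mem fun j _ => B.pow_mem (hxB j) _
  have e8 : m ^ p * X = M.x t i * z := by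
    have h1 : M.x t i = ∏ j, M.x t j ^ (if j = i then (1 : ℤ) else 0) := by
      rw [Finset.prod_eq_single i]
      · rw [if_pos rfl, zpow_one]
      · intro j _ hj
        rw [if_neg hj, zpow_zero]
      · intro hh
        exact absurd (Finset.mem_univ i) hh
    conv_rhs => rw [h1]
    rw [hm, hX, hz, ← Finset.prod_pow, ← Finset.prod_mul_distrib, ← Finset.prod_mul_distrib]
    refine Finset.prod_congr rfl fun j _ => ?_
    rw [← zpow_natCast (M.x t j) (e j), ← zpow_add₀ (hx0 j), ← hde j, zpow_add₀ (hx0 j), ← pow_mul,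
      ← zpow_natCast]
    congr 2
    push_cast
    ring
  have hp1z : (1 : ℤ) ≤ (p : ℤ) - 1 := by
    have := hp.out.two_le
    omega
  let ev : I → ℕ := fun j => (-((p : ℤ) - 1) * μ j - if j = i then 1 else 0).toNat
  have hev : ∀ j, -((p : ℤ) - 1) * μ j = (if j = i then 1 else 0) + ev j := by
    intro j
    have h0 : 0 ≤ -((p : ℤ) - 1) * μ j - (if j = i then 1 else 0) := by
      split_ifs with hji
      · have hm : μ j ≤ -1 := by
          have := hPS.cm i hi
          rw [hji]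
          omega
        nlinarith
      · have hm := hPS.m0 j
        nlinarith
    have h1 : (ev j : ℤ) = -((p : ℤ) - 1) * μ j - (if j = i then 1 else 0) :=
      Int.toNat_of_nonneg h0
    rw [h1]
    ring
  set zv : N := ∏ j, M.x t j ^ ev j with hzv
  have hzvB : zv ∈ B := B.prod_mem fun j _ => B.pow_mem (hxB j) _
  have e9 : V = M.x t i * zv := by
    have h1 : M.x t i = ∏ j, M.x t j ^ (if j = i then (1 : ℤ) else 0) := by
      rw [Finset.prod_eq_single i]
      · rw [if_pos rfl, zpow_one]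
      · intro j _ hj
        rw [if_neg hj, zpow_zero]
      · intro hh
        exact absurd (Finset.mem_univ i) hh
    conv_rhs => rw [h1]
    rw [hV, hzv, ← Finset.prod_mul_distrib]
    refine Finset.prod_congr rfl fun j _ => ?_
    rw [← zpow_natCast (M.x t j) (ev j), ← zpow_add₀ (hx0 j), ← hev j]
  -- the quotient
  have hwB : y t - E * y t' ∈ B := B.sub_mem hyB (B.mul_mem hEB hyB')
  let I0 : Ideal B := Ideal.span {(⟨M.x t i, hxB i⟩ : B)}
  have hR : Algebra.Smooth k (B ⧸ I0) := smooth_of_snc hsnc i (hxB i)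
  have h1 : (Ideal.Quotient.mk I0 (⟨m, hmB⟩ * ⟨y t - E * y t', hwB⟩ : B)) ^ p = 0 := by
    rw [← map_pow, Ideal.Quotient.eq_zero_iff_mem]
    refine Ideal.mem_span_singleton.2 ⟨⟨m ^ p * zv * (y t - E * y t') + z * κ,
      B.add_mem (B.mul_mem (B.mul_mem (B.pow_mem hmB p) hzvB) hwB) (B.mul_mem hzB hκB)⟩, ?_⟩
    apply Subtype.ext
    show (m * (y t - E * y t')) ^ p = M.x t i * (m ^ p * zv * (y t - E * y t') + z * κ)
    rw [mul_pow, e7, mul_add, ← mul_assoc (m ^ p) X κ, e8, e9]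
    ring
  have h2 := reduced_of_smooth k h1
  rw [map_mul] at h2
  have h3 : Ideal.Quotient.mk I0 (⟨m, hmB⟩ : B) =
      ∏ j, Ideal.Quotient.mk I0 (⟨M.x t j, hxB j⟩ : B) ^ d j := by
    have h4 : (⟨m, hmB⟩ : B) = ∏ j, (⟨M.x t j, hxB j⟩ : B) ^ d j := by
      apply Subtype.ext
      simp [hm]
    rw [h4, map_prod]
    simp only [map_pow]
  rw [h3] at h2
  have h5 : Ideal.Quotient.mk I0 (⟨y t - E * y t', hwB⟩ : B) = 0 := by
    refine nzd_prod Finset.univ (fun j => Ideal.Quotient.mk I0 (⟨M.x t j, hxB j⟩ : B) ^ d j)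
      (fun j _ => ?_) _ h2
    by_cases hji : j = i
    · have hd : d j = 0 := by
        show (-c j).toNat = 0
        rw [hji]
        exact Int.toNat_of_nonpos (by omega)
      intro r hr
      simp only [hd, pow_zero, one_mul] at hr
      exact hr
    · exact nzd_pow (fun r hr => nzd_of_snc hsnc hji (hxB i) (hxB j) r hr) (d j)
  rw [Ideal.Quotient.eq_zero_iff_mem] at h5
  obtain ⟨⟨b, hb⟩, hbe⟩ := Ideal.mem_span_singleton.1 h5
  have h6 : y t - E * y t' = M.x t i * b := congrArg Subtype.val hbe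
  -- conclusion
  obtain ⟨n1, hn1⟩ := (mem_adj_inv hρA hρ0).1 hEB'
  obtain ⟨n2, hn2⟩ := (mem_adj_inv hρA hρ0).1 (B.neg_mem (B.mul_mem hEB' hb))
  refine ⟨n1 + n2, ρ ^ n2 * (E⁻¹ * ρ ^ n1), (M.A t).mul_mem ((M.A t).pow_mem hρA _) hn1,
    ρ ^ n1 * (-(E⁻¹ * b) * ρ ^ n2), (M.A t).mul_mem ((M.A t).pow_mem hρA _) hn2, ?_⟩
  have h7 : y t' = E⁻¹ * (y t - M.x t i * b) := by
    rw [← h6]
    field_simp
    ring
  rw [h7, pow_add]
  ring

end Pool.Agent.W417.WA.CP
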