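import Pool.Agent.W558.WA.Stms
import Pool.Agent.W216.WD.Gwf

/-! Project AS: no infinite sequences of infinitely near bad points. -/

set_option autoImplicit false
set_option linter.unusedVariables false
set_option linter.unusedSectionVars false

universe u

open Polynomial

namespace Pool.Agent.W417.WA.WF

open Pool.Agent.W558 Pool.Agent.W216.WD.Gwf

section

variable {k E : Type u} [Field k] [Field E] [Algebra k E]

/-- A bad point on one component of the boundary. -/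
structure NP (p : ℕ) (l : Subalgebra k E × Set E) (f x y : E) (N c : ℕ) : Prop where
  par : Par l.1 x y
  b : l.2 = uo l.1 x
  dat : DN p l.1 x y f N c
  n1 : 1 ≤ N
  c1 : 1 ≤ c

/-- A bad point on two components of the boundary. -/
structure CP (p : ℕ) (l : Subalgebra k E × Set E) (f x y : E) (N M c d : ℕ) : Prop where
  par : Par l.1 x y
  b : l.2 = uo l.1 x ∪ uo l.1 y
  dat : DC p l.1 x y f N M c d
  n1 : 1 ≤ N + M
  c1 : 1 ≤ N → 1 ≤ c
  d1 : 1 ≤ M → 1 ≤ d

variable [PerfectField k] (p : ℕ) [Fact p.Prime] [CharP k p] (htr : Algebra.trdeg k E = 2)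
  (hx : WA_x.{u}) (hu : WA_u.{u}) (hbnd : WD_bnd.{u}) (ha1 : WA_a1.{u}) (ha2 : WA_a2.{u})
  (ha3 : WA_a3.{u}) (ha4 : WA_a4.{u}) {f : E}

include htr hx hu in
lemma exists_NP {l : Subalgebra k E × Set E} {x y : E} (hP : Pt2 l.1) (hpar : Par l.1 x y)
    (hb : l.2 = uo l.1 x) (hPo : Po l.1 l.2 f) (hG : ¬ GA p l.1 l.2 f) :
    ∃ N c, NP p l f x y N c := by
  obtain ⟨N, c, h1⟩ := (hx p k E htr l.1 x y f hP hpar).1 (po_N hPo hb)
  have h2 := (hu p k E htr l.1 x y f hP hpar).2.2.2.2.2.1 N c h1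
  rw [hb] at hG
  refine ⟨N, c, hpar, hb, h1, ?_, ?_⟩
  · by_contra hc
    exact hG (h2 (Or.inl (by omega)))
  · by_contra hc
    exact hG (h2 (Or.inr (by omega)))

include htr hx hu in
lemma exists_CP {l : Subalgebra k E × Set E} {x y : E} (hP : Pt2 l.1) (hpar : Par l.1 x y)
    (hb : l.2 = uo l.1 x ∪ uo l.1 y) (hPo : Po l.1 l.2 f) (hG : ¬ GA p l.1 l.2 f) :
    ∃ N M c d, CP p l f x y N M c d := by
  obtain ⟨N, M, c, d, h1⟩ := (hx p k E htr l.1 x y f hP hpar).2
    (po_C hpar.pu.mem hpar.pv.mem hPo hb)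
  have h2 := (hu p k E htr l.1 x y f hP hpar).2.2.2.2.2.2 N M c d h1
  rw [hb] at hG
  refine ⟨N, M, c, d, hpar, hb, h1, ?_, ?_, ?_⟩
  · by_contra hc
    exact hG (h2 (Or.inl (by omega)))
  · intro hN
    by_contra hc
    exact hG (h2 (Or.inr (Or.inl (by omega))))
  · intro hM
    by_contra hc
    exact hG (h2 (Or.inr (Or.inr (by omega))))

include htr hu in
lemma CP.swap {l : Subalgebra k E × Set E} {x y : E} {N M c d : ℕ} (hP : Pt2 l.1)
    (h : CP p l f x y N M c d) : CP p l f y x M N d c where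
  par := h.par.symm
  b := by rw [h.b, Set.union_comm]
  dat := (hu p k E htr l.1 x y f hP h.par).2.2.2.2.1 N M c d h.dat
  n1 := by have := h.n1; omega
  c1 := h.d1
  d1 := h.c1

lemma IM.swap {O : Subalgebra k E} {x y : E} {N M : ℕ} (h : IM p O x y f N M) :
    IM p O y x f M N := by
  obtain ⟨a, h1, h2, h3⟩ := h
  refine ⟨a, ?_, ?_, ?_⟩
  · rw [mul_comm (y ^ M)]
    exact h1
  · intro θ hθ
    rw [mul_comm (y ^ M)]
    rw [Set.union_comm] at hθ
    exact h2 θ hθ
  · intro z hz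
    obtain ⟨θ, hθ, h4⟩ := h3 z hz
    refine ⟨θ, ?_, ?_⟩
    · rw [Set.union_comm]
      exact hθ
    · rw [mul_comm (y ^ M)]
      exact h4

include htr hbnd ha4 in
lemma stepI {l l' : Subalgebra k E × Set E} (hr : rAS p f l' l) {x y : E} {N M c d : ℕ}
    (h : CP p l f x y N M c d) (hN : 1 ≤ N) (hM : 1 ≤ M) (hI : IM p l.1 x y f N M) : False := by
  obtain ⟨⟨hP, hP', -, -, -, -, hG, hG'⟩, e, hQ, hb'⟩ := hr
  rw [h.b] at hb'
  rcases (hbnd k E htr l.1 l'.1 e hP hP' hQ).2.2.2 x y h.par with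
    ⟨h1, h2, h3⟩ | ⟨h1, h2, h3⟩ | ⟨h1, h2, h3⟩
  · apply hG'
    rw [hb', h3]
    exact (ha4 p k E htr l.1 l'.1 x y f N M hP hP' h.par h1 hN hM hI).1 h2
  · apply hG'
    rw [hb', h3]
    exact (ha4 p k E htr l.1 l'.1 x y f N M hP hP' h.par h1 hN hM hI).2 h2
  · apply hG'
    rw [hb', h3]
    exact (ha4 p k E htr l.1 l'.1 y x f M N hP hP' h.par.symm h1 hM hN (IM.swap p hI)).2 h2

/-- the inequalities of a corner after a corner -/
def Cor (N M c d N' M' c' d' : ℕ) : Prop :=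
  M' = M ∧ N' < N + M ∧ (1 ≤ N' → c' + N' ≤ N + M) ∧ (1 ≤ N → N + M ≤ c + N') ∧
    (1 ≤ M → d' + (N + M) = d + N')

include htr hx hu hbnd ha3 in
lemma stepC {l l' : Subalgebra k E × Set E} (hr : rAS p f l' l) {x y : E} {N M c d : ℕ}
    (h : CP p l f x y N M c d) :
    (∃ x' y' N' c', NP p l' f x' y' N' c' ∧ N' < N + M ∧ c' + N' ≤ N + M ∧
      (1 ≤ N → N + M ≤ c + N') ∧ (1 ≤ M → N + M ≤ d + N')) ∨
    (∃ x' y' N' M' c' d', CP p l' f x' y' N' M' c' d' ∧
      (Cor N M c d N' M' c' d' ∨ Cor M N d c N' M' c' d')) := by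
  obtain ⟨⟨hP, hP', -, -, -, hPo', hG, hG'⟩, e, hQ, hb'⟩ := hr
  have hs := h.swap p htr hu hP
  rw [h.b] at hb'
  rcases (hbnd k E htr l.1 l'.1 e hP hP' hQ).2.2.2 x y h.par with
    ⟨h1, h2, h3⟩ | ⟨h1, h2, h3⟩ | ⟨h1, h2, h3⟩
  · left
    obtain ⟨y', hy'⟩ := (hbnd k E htr l.1 l'.1 x hP hP' h1).1
    obtain ⟨N', c', hN⟩ := exists_NP p htr hx hu hP' hy' (hb'.trans h3) hPo' hG'
    obtain ⟨h4, h5, h6, h7⟩ := (ha3 p k E htr l.1 l'.1 x y f N M c d hP hP' h.par h1 h.dat h.n1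
      h.c1 h.d1).1 y' N' c' h2 hy' hN.dat
    exact ⟨x, y', N', c', hN, h4, h5 hN.n1, h6, h7⟩
  · right
    obtain ⟨N', M', c', d', hC⟩ := exists_CP p htr hx hu hP' h2 (hb'.trans h3) hPo' hG'
    exact ⟨_, _, N', M', c', d', hC, Or.inl ((ha3 p k E htr l.1 l'.1 x y f N M c d hP hP' h.par h1
      h.dat h.n1 h.c1 h.d1).2 N' M' c' d' h2 hC.dat)⟩
  · right
    obtain ⟨N', M', c', d', hC⟩ := exists_CP p htr hx hu hP' h2 (hb'.trans h3) hPo' hG'
    exact ⟨_, _, N', M', c', d', hC, Or.inr ((ha3 p k E htr l.1 l'.1 y x f M N d c hP hP' hs.par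
      h1 hs.dat hs.n1 hs.c1 hs.d1).2 N' M' c' d' h2 hC.dat)⟩

include htr hx hu hbnd ha1 ha2 in
lemma stepN {l l' : Subalgebra k E × Set E} (hr : rAS p f l' l) {x y : E}
    {N c : ℕ} (h : NP p l f x y N c) :
    (∃ y' N' c', NP p l' f x y' N' c' ∧ N' < N ∧ c' ≤ c) ∨
    (∃ x' y' N' M' c' d', CP p l' f x' y' N' M' c' d' ∧ M' = N ∧ N' < N ∧
      d' + (N - N') ≤ c + 1 ∧ (1 ≤ N' → c' ≤ N - N') ∧
      (c = 1 → 1 ≤ N' → 1 ≤ c' → 1 ≤ d' → IM p l'.1 x' y' f N' M')) := by
  obtain ⟨⟨hP, hP', -, -, -, hPo', hG, hG'⟩, e, hQ, hb'⟩ := hr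
  rw [h.b] at hb'
  rcases (hbnd k E htr l.1 l'.1 e hP hP' hQ).2.2.1 x y h.par with
    ⟨h1, h3⟩ | ⟨y', h1, h2, h3, h4⟩
  · left
    obtain ⟨y', hy'⟩ := (hbnd k E htr l.1 l'.1 x hP hP' h1).1
    obtain ⟨N', c', hN⟩ := exists_NP p htr hx hu hP' hy' (hb'.trans h3) hPo' hG'
    obtain ⟨h5, h6⟩ := ha1 p k E htr l.1 l'.1 x y y' f N c N' c' hP hP' h.par h1 hy' h.dat h.n1
      h.c1 hN.dat
    exact ⟨y', N', c', hN, h5, h6 hN.n1⟩
  · right
    obtain ⟨N', M', c', d', hC⟩ := exists_CP p htr hx hu hP' h3 (hb'.trans h4) hPo' hG'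
    have hD := (hu p k E htr l.1 x y f hP h.par).2.2.1 x y' N c (mem_uo_self _ _) h1 h.dat
    obtain ⟨h5, h6, h7, h8, h9⟩ := ha2 p k E htr l.1 l'.1 x y' f N c N' M' c' d' hP hP' h1 h2 h3
      hD h.n1 h.c1 hC.dat
    exact ⟨_, _, N', M', c', d', hC, h5, h6, h7, h8, h9⟩

/-- the potential of a point on two components -/
def pot (N M c d : ℕ) : ℕ := if M = 0 then c else if N = 0 then d else c + d - 1

lemma pot_swap (N M c d : ℕ) (h : 1 ≤ N + M) : pot N M c d = pot M N d c := by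
  unfold pot
  split_ifs <;> omega

include htr hx hu hbnd ha1 ha2 ha3 ha4 in
theorem no_seq (l : ℕ → Subalgebra k E × Set E) (hr : ∀ n, rAS p f (l (n + 1)) (l n)) :
    ∀ w : ℕ, (∀ n x y N c, NP p (l n) f x y N c → c ≤ w → False) ∧
      (∀ n x y N M c d, CP p (l n) f x y N M c d → pot N M c d ≤ w → False) := by
  intro w
  induction w using Nat.strong_induction_on with
  | _ w ih =>
  have ihN : ∀ n x y N c, NP p (l n) f x y N c → c < w → False := fun n x y N c h hc =>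
    (ih c hc).1 n x y N c h le_rfl
  have ihC : ∀ n x y N M c d, CP p (l n) f x y N M c d → pot N M c d < w → False :=
    fun n x y N M c d h hc => (ih _ hc).2 n x y N M c d h le_rfl
  -- corners after corners
  have hcor : ∀ N M c d N' M' c' d' : ℕ, 1 ≤ M → (1 ≤ N → 1 ≤ c) → 1 ≤ N' + M' →
      (1 ≤ N' → 1 ≤ c') → (1 ≤ M' → 1 ≤ d') → Cor N M c d N' M' c' d' →
      pot N' M' c' d' < pot N M c d := by
    intro N M c d N' M' c' d' hM hNc h1 h1c h1d ⟨h2, h3, h4, h5, h6⟩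
    unfold pot
    have h6' := h6 hM
    split_ifs <;> omega
  -- a full corner
  have hfull : ∀ n x y N M c d, CP p (l n) f x y N M c d → 1 ≤ N → 1 ≤ M → c + d - 1 ≤ w →
      c = 1 ∧ d = 1 ∧ w = 1 := by
    intro n x y N M c d h hN hM hw
    have hc := h.c1 hN
    have hd := h.d1 hM
    have hpot : pot N M c d = c + d - 1 := by
      unfold pot
      rw [if_neg (by omega), if_neg (by omega)]
    rcases stepC p htr hx hu hbnd ha3 (hr n) h with
      ⟨x', y', N', c', h1, h2, h3, h4, h5⟩ | ⟨x', y', N', M', c', d', h1, h2 | h2⟩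
    · have h4' := h4 hN
      have h5' := h5 hM
      by_contra hcon
      refine ihN _ _ _ _ _ h1 ?_
      have := h1.c1
      omega
    · exfalso
      have h3 := hcor _ _ _ _ _ _ _ _ hM (fun _ => hc) h1.n1 h1.c1 h1.d1 h2
      exact ihC _ _ _ _ _ _ _ h1 (by omega)
    · exfalso
      have h3 := hcor _ _ _ _ _ _ _ _ hN (fun _ => hd) h1.n1 h1.c1 h1.d1 h2
      rw [pot_swap M N d c (by omega)] at h3
      exact ihC _ _ _ _ _ _ _ h1 (by omega)
  -- one ramified component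
  have key : ∀ K : ℕ, (∀ n x y N c, NP p (l n) f x y N c → c ≤ w → 2 * N + 1 ≤ K → False) ∧
      (∀ n x y N c d, CP p (l n) f x y N 0 c d → c ≤ w → 2 * N ≤ K → False) := by
    intro K
    induction K with
    | zero =>
      constructor
      · intro n x y N c h _ h2
        omega
      · intro n x y N c d h _ h2
        have := h.n1
        omega
    | succ K ihK =>
      constructor
      · intro n x y N c h hc hK
        rcases stepN p htr hx hu hbnd ha1 ha2 (hr n) h with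
          ⟨y', N', c', h1, h2, h3⟩ | ⟨x', y', N', M', c', d', h1, h2, h3, h4, h5, h6⟩
        · exact ihK.1 _ _ _ _ _ h1 (by omega) (by omega)
        · have hM' : 1 ≤ M' := by
            have := h.n1
            omega
          have hd' := h1.d1 hM'
          by_cases hN' : N' = 0
          · -- half
            have h7 := h1.swap p htr hu (hr n).1.2.1
            subst hN'
            by_cases hN1 : N = 1
            · refine ihK.2 _ _ _ _ _ _ h7 (by omega) (by omega)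
            · refine ihC _ _ _ _ _ _ _ h7 ?_
              unfold pot
              rw [if_pos rfl]
              omega
          · have hN1 : 1 ≤ N' := by omega
            have h5' := h5 hN1
            have hc' := h1.c1 hN1
            obtain ⟨e1, e2, e3⟩ := hfull _ _ _ _ _ _ _ h1 hN1 hM' (by omega)
            have hc1 : c = 1 := by
              have := h.c1
              omega
            exact stepI p htr hbnd ha4 (hr (n + 1)) h1 hN1 hM' (h6 hc1 hN1 hc' hd')
      · intro n x y N c d h hc hK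
        have hN : 1 ≤ N := by
          have := h.n1
          omega
        have hc1 := h.c1 hN
        rcases stepC p htr hx hu hbnd ha3 (hr n) h with
          ⟨x', y', N', c', h1, h2, h3, h4, h5⟩ | ⟨x', y', N', M', c', d', h1, h2 | h2⟩
        · have h4' := h4 hN
          exact ihK.1 _ _ _ _ _ h1 (by omega) (by omega)
        · obtain ⟨e1, e2, e3, e4, e5⟩ := h2
          subst e1
          have hN' : 1 ≤ N' := by
            have := h1.n1
            omega
          have e3' := e3 hN'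
          have e4' := e4 hN
          exact ihK.2 _ _ _ _ _ _ h1 (by omega) (by omega)
        · have h3 := hcor _ _ _ _ _ _ _ _ hN (fun hh => absurd hh (by omega)) h1.n1 h1.c1 h1.d1 h2
          rw [pot_swap 0 N d c (by omega)] at h3
          refine ihC _ _ _ _ _ _ _ h1 (lt_of_lt_of_le h3 ?_)
          unfold pot
          rw [if_pos rfl]
          exact hc
  have hNP : ∀ n x y N c, NP p (l n) f x y N c → c ≤ w → False := fun n x y N c h hc =>
    (key (2 * N + 1)).1 n x y N c h hc le_rfl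
  refine ⟨hNP, ?_⟩
  intro n x y N M c d h hw
  by_cases hM : M = 0
  · subst hM
    unfold pot at hw
    rw [if_pos rfl] at hw
    exact (key (2 * N)).2 n x y N c d h hw le_rfl
  by_cases hN : N = 0
  · subst hN
    unfold pot at hw
    rw [if_neg hM, if_pos rfl] at hw
    exact (key (2 * M)).2 n y x M d c (h.swap p htr hu (hr n).1.1) hw le_rfl
  · have hN1 : 1 ≤ N := by omega
    have hM1 : 1 ≤ M := by omega
    have hc := h.c1 hN1
    have hd := h.d1 hM1
    have hpot : pot N M c d = c + d - 1 := by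
      unfold pot
      rw [if_neg hM, if_neg hN]
    rcases stepC p htr hx hu hbnd ha3 (hr n) h with
      ⟨x', y', N', c', h1, h2, h3, h4, h5⟩ | ⟨x', y', N', M', c', d', h1, h2 | h2⟩
    · have h4' := h4 hN1
      exact hNP _ _ _ _ _ h1 (by omega)
    · have h3 := hcor _ _ _ _ _ _ _ _ hM1 (fun _ => hc) h1.n1 h1.c1 h1.d1 h2
      exact ihC _ _ _ _ _ _ _ h1 (by omega)
    · have h3 := hcor _ _ _ _ _ _ _ _ hN1 (fun _ => hd) h1.n1 h1.c1 h1.d1 h2
      rw [pot_swap M N d c (by omega)] at h3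
      exact ihC _ _ _ _ _ _ _ h1 (by omega)

end

theorem main (hx : WA_x.{u}) (hu : WA_u.{u}) (hbnd : WD_bnd.{u}) (ha1 : WA_a1.{u})
    (ha2 : WA_a2.{u}) (ha3 : WA_a3.{u}) (ha4 : WA_a4.{u}) : WA_wf.{u} := by
  intro p hp k E _ _ _ _ _ htr f
  rw [wellFounded_iff_isEmpty_descending_chain]
  constructor
  rintro ⟨l, hr⟩
  have h0 := hr 0
  obtain ⟨⟨hP, hP', hT, hT', -, hPo', hG, hG'⟩, e, hQ, hb'⟩ := h0
  have hne : (l 1).2 ≠ ∅ := by
    intro h2
    have h3 : e ∈ (l 1).2 := by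
      rw [hb']
      exact Or.inl (mem_uo_self _ _)
    rw [h2] at h3
    exact h3
  obtain ⟨x, y, hpar, h2 | h2 | h2⟩ := hT'
  · exact hne h2
  · obtain ⟨N, c, hN⟩ := exists_NP p htr hx hu hP' hpar h2 hPo' hG'
    exact (no_seq p htr hx hu hbnd ha1 ha2 ha3 ha4 l hr c).1 1 x y N c hN le_rfl
  · obtain ⟨N, M, c, d, hC⟩ := exists_CP p htr hx hu hP' hpar h2 hPo' hG'
    exact (no_seq p htr hx hu hbnd ha1 ha2 ha3 ha4 l hr (pot N M c d)).2 1 x y N M c d hC le_rfl

end Pool.Agent.W417.WA.WF
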